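import Pool.Agent.H985R6.LC.All

/-!
The first vertex of a half-line visited by the exploration path: from the local form of Cardy's
formula (`H985LC`).
-/

set_option autoImplicit false

namespace Pool.Agent.X145.LC

open MeasureTheory Filter Topology

def Visits (N : ℤ) (ω : H974.sqLattice.edgeSet → Bool) (k : ℤ) : Prop :=
  ∃ x : ℤ, x ≤ -N ∧ ∃ p : (H974.openGraph ω).Walk (x, 0) (k, 0), ∀ v ∈ p.support, 0 ≤ v.2

def FirstVisit (N : ℤ) (ω : H974.sqLattice.edgeSet → Bool) (k : ℤ) : Prop :=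
  0 ≤ k ∧ Visits N ω k ∧ ∀ j : ℤ, 0 ≤ j → j < k → ¬ Visits N ω j

theorem mem_J {N : ℤ} {J : Set ℤ} {ω : H974.sqLattice.edgeSet → Bool} :
    ω ∈ H731C.Joined (Set.Iic (-N)) J ↔ ∃ y ∈ J, Visits N ω y := by
  constructor
  · rintro ⟨x, hx, y, hy, p, hp⟩
    exact ⟨y, hy, x, hx, p, hp⟩
  · rintro ⟨y, hy, x, hx, p, hp⟩
    exact ⟨x, hx, y, hy, p, hp⟩

/-- the first visited point lies in `[k, l]` -/
theorem first_eq {N k l : ℤ} (hk : 0 ≤ k) :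
    {ω : H974.sqLattice.edgeSet → Bool | ∃ j : ℤ, k ≤ j ∧ j ≤ l ∧ FirstVisit N ω j} =
      H731C.Joined (Set.Iic (-N)) (Set.Icc 0 l) \
        H731C.Joined (Set.Iic (-N)) (Set.Icc 0 (k - 1)) := by
  ext ω
  rw [Set.mem_sdiff, mem_J, mem_J]
  constructor
  · rintro ⟨j, h1, h2, h3, h4, h5⟩
    refine ⟨⟨j, ⟨h3, h2⟩, h4⟩, ?_⟩
    rintro ⟨i, ⟨hi1, hi2⟩, hi3⟩
    exact h5 i hi1 (by omega) hi3
  · rintro ⟨⟨j, ⟨hj1, hj2⟩, hj3⟩, h2⟩
    -- the least visited point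
    classical
    have hex : ∃ n : ℕ, Visits N ω (n : ℤ) := ⟨j.toNat, by rw [Int.toNat_of_nonneg hj1]; exact hj3⟩
    have hm := Nat.find_spec hex
    refine ⟨((Nat.find hex : ℕ) : ℤ), ?_, ?_, by positivity, hm, ?_⟩
    · by_contra hlt
      exact h2 ⟨_, ⟨by positivity, by omega⟩, hm⟩
    · have : Nat.find hex ≤ j.toNat := Nat.find_min' hex (by rw [Int.toNat_of_nonneg hj1]; exact hj3)
      omega
    · intro i hi1 hi2 hi3
      have h3 : Nat.find hex ≤ i.toNat := Nat.find_min' hex (by rw [Int.toNat_of_nonneg hi1]; exact hi3)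
      omega

theorem first_one {N k : ℤ} (hk : 0 ≤ k) :
    {ω : H974.sqLattice.edgeSet → Bool | FirstVisit N ω k} = H731C.Joined (Set.Iic (-N)) {k} \
      H731C.Joined (Set.Iic (-N)) (Set.Icc 0 (k - 1)) := by
  ext ω
  rw [Set.mem_sdiff, mem_J, mem_J]
  constructor
  · rintro ⟨h3, h4, h5⟩
    refine ⟨⟨k, rfl, h4⟩, ?_⟩
    rintro ⟨i, ⟨hi1, hi2⟩, hi3⟩
    exact h5 i hi1 (by omega) hi3
  · rintro ⟨⟨j, hj, hj3⟩, h2⟩
    rw [Set.mem_singleton_iff] at hj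
    subst hj
    exact ⟨hk, hj3, fun i h1 h3 h4 => h2 ⟨i, ⟨h1, by omega⟩, h4⟩⟩

theorem first_meas {N k l : ℤ} (hk : 0 ≤ k) (hkl : k ≤ l) :
    (H974.bondLaw H731C.half).real {ω | ∃ j : ℤ, k ≤ j ∧ j ≤ l ∧ FirstVisit N ω j} =
      H731C.crossProb (Set.Iic (-N)) (Set.Icc 0 l) -
        H731C.crossProb (Set.Iic (-N)) (Set.Icc 0 (k - 1)) := by
  rw [first_eq hk, measureReal_sdiff ?_ (H985LC.meas_Iic _ _ _)]
  · rfl
  · rintro ω ⟨x, hx, y, hy, p, hp⟩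
    exact ⟨x, hx, y, ⟨hy.1, by have := hy.2; omega⟩, p, hp⟩

/-- Almost surely some point of the half-axis is visited. -/
theorem ae_visit {N : ℤ} (hN : 1 ≤ N) : ∀ᵐ ω ∂(H974.bondLaw H731C.half), ∃ k : ℤ, FirstVisit N ω k := by
  obtain ⟨c, C, hc, hC, h⟩ := H731C.half_bounds_Iic
  have hprob : IsProbabilityMeasure (H974.bondLaw H731C.half) := by
    unfold H974.bondLaw
    infer_instance
  rw [ae_iff]
  obtain ⟨Z, hZ⟩ : ∃ Z : Set (H974.sqLattice.edgeSet → Bool), Z = {ω | ¬ ∃ k : ℤ, FirstVisit N ω k} := ⟨_, rfl⟩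
  have hle : ∀ l : ℕ, (H974.bondLaw H731C.half).real Z ≤
      C * ((N : ℝ) / ((N : ℝ) + (l + 1))) ^ ((1 : ℝ) / 3) := by
    intro l
    have h1 : Z ⊆ (H731C.Joined (Set.Iic (-N)) (Set.Icc 0 (l : ℤ)))ᶜ := by
      intro ω hω hJ
      rw [hZ] at hω
      apply hω
      have h2 : ω ∈ {ω : H974.sqLattice.edgeSet → Bool | ∃ j : ℤ, 0 ≤ j ∧ j ≤ (l : ℤ) ∧ FirstVisit N ω j} := by
        rw [first_eq le_rfl]
        refine ⟨hJ, ?_⟩
        rintro ⟨x, hx, y, hy, -⟩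
        have := hy.1
        have := hy.2
        omega
      obtain ⟨j, -, -, hj⟩ := h2
      exact ⟨j, hj⟩
    refine (measureReal_mono h1).trans ?_
    rw [probReal_compl_eq_one_sub (H985LC.meas_Iic _ _ _)]
    have h3 := (h (-N) 0 l (by omega) (by positivity) _ rfl).2.2.2
    refine h3.trans (le_of_eq ?_)
    push_cast
    congr 3
    · ring
    · ring
  have hlim : Tendsto (fun l : ℕ => C * ((N : ℝ) / ((N : ℝ) + (l + 1))) ^ ((1 : ℝ) / 3)) atTop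
      (𝓝 0) := by
    have h1 : Tendsto (fun l : ℕ => (N : ℝ) / ((N : ℝ) + (l + 1))) atTop (𝓝 0) := by
      apply Tendsto.const_div_atTop
      apply tendsto_atTop_add_const_left
      exact tendsto_atTop_add_const_right _ _ tendsto_natCast_atTop_atTop
    have h2 := (h1.rpow_const (p := (1 : ℝ) / 3) (Or.inr (by norm_num))).const_mul C
    rwa [Real.zero_rpow (by norm_num), mul_zero] at h2
  have h0 : (H974.bondLaw H731C.half).real Z ≤ 0 := ge_of_tendsto' hlim hle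
  have h1 : (H974.bondLaw H731C.half).real Z = 0 := le_antisymm h0 measureReal_nonneg
  rw [← hZ]
  exact (measureReal_eq_zero_iff).1 h1

theorem floor_gap {b b' : ℝ} (hbb : b < b') :
    ∀ᶠ n : ℕ in atTop, ⌊b * (n : ℝ)⌋ + 1 ≤ ⌊b' * (n : ℝ)⌋ := by
  have e3 : ∀ᶠ n : ℕ in atTop, (1 : ℝ) ≤ (b' - b) * n := by
    have h0 : Tendsto (fun n : ℕ => (b' - b) * (n : ℝ)) atTop atTop :=
      tendsto_natCast_atTop_atTop.const_mul_atTop (by linarith)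
    exact h0.eventually_ge_atTop 1
  filter_upwards [e3] with n h3
  rw [Int.le_floor]
  push_cast
  have := Int.floor_le (b * (n : ℝ))
  nlinarith

theorem main :
    (∀ N : ℤ, 1 ≤ N → ∀ᵐ ω ∂(H974.bondLaw H731C.half), ∃ k : ℤ, FirstVisit N ω k) ∧
    ∃ c C : ℝ, 0 < c ∧ 0 < C ∧
      (∀ N k : ℤ, 1 ≤ N → 0 ≤ k →
        c * ((N : ℝ) ^ (1/3 : ℝ) / (((k : ℝ) + 1) ^ (2/3 : ℝ) * ((N : ℝ) + k) ^ (2/3 : ℝ))) ≤
          (H974.bondLaw H731C.half).real {ω | FirstVisit N ω k} ∧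
        (H974.bondLaw H731C.half).real {ω | FirstVisit N ω k} ≤
          C * ((N : ℝ) ^ (1/3 : ℝ) / (((k : ℝ) + 1) ^ (2/3 : ℝ) * ((N : ℝ) + k) ^ (2/3 : ℝ)))) ∧
      (∀ N k l : ℤ, 1 ≤ N → 0 ≤ k → k ≤ l →
        c * (H731C.cardyF (((l : ℝ) + 1) / ((N : ℝ) + (l + 1))) - H731C.cardyF ((k : ℝ) / ((N : ℝ) + k))) ≤
          (H974.bondLaw H731C.half).real {ω | ∃ j : ℤ, k ≤ j ∧ j ≤ l ∧ FirstVisit N ω j} ∧
        (H974.bondLaw H731C.half).real {ω | ∃ j : ℤ, k ≤ j ∧ j ≤ l ∧ FirstVisit N ω j} ≤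
          C * (H731C.cardyF (((l : ℝ) + 1) / ((N : ℝ) + (l + 1))) - H731C.cardyF ((k : ℝ) / ((N : ℝ) + k)))) ∧
      (∀ a b b' : ℝ, 0 < a → 0 ≤ b → b < b' → ∀ᶠ n : ℕ in atTop,
        c * (H731C.cardyF (b' / (a + b')) - H731C.cardyF (b / (a + b))) ≤
          (H974.bondLaw H731C.half).real {ω | ∃ j : ℤ, b * n < j ∧ j ≤ b' * n ∧ FirstVisit ⌈a * n⌉ ω j} ∧
        (H974.bondLaw H731C.half).real {ω | ∃ j : ℤ, b * n < j ∧ j ≤ b' * n ∧ FirstVisit ⌈a * n⌉ ω j} ≤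
          C * (H731C.cardyF (b' / (a + b')) - H731C.cardyF (b / (a + b)))) := by
  refine ⟨fun N hN => ae_visit hN, ?_⟩
  obtain ⟨c, C, hc, hC, h1, h2, h3⟩ := H985LC.final H985LC.all_wb H985LC.t_fd H985LC.t_lm
    H985LC.t_cy
  refine ⟨c, C, hc, hC, ?_, ?_, ?_⟩
  · intro N k hN hk
    have h := h1 N k hN hk
    rw [first_one hk]
    exact h
  · intro N k l hN hk hkl
    have h := h2 N k l hN hk hkl
    rw [first_meas hk hkl]
    push_cast at h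
    exact h
  · intro a b b' ha hb hbb
    filter_upwards [h3 a b b' ha hb hbb, floor_gap hbb] with n hn hfl
    have e1 : {ω : H974.sqLattice.edgeSet → Bool | ∃ j : ℤ, b * n < j ∧ j ≤ b' * n ∧ FirstVisit ⌈a * n⌉ ω j} =
        {ω | ∃ j : ℤ, ⌊b * n⌋ + 1 ≤ j ∧ j ≤ ⌊b' * n⌋ ∧ FirstVisit ⌈a * n⌉ ω j} := by
      ext ω
      constructor
      · rintro ⟨j, g1, g2, g3⟩
        exact ⟨j, Int.add_one_le_iff.2 (Int.floor_lt.2 g1), Int.le_floor.2 g2, g3⟩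
      · rintro ⟨j, g1, g2, g3⟩
        exact ⟨j, Int.floor_lt.1 (Int.add_one_le_iff.1 g1), Int.le_floor.1 g2, g3⟩
    have hfb : 0 ≤ ⌊b * (n : ℝ)⌋ := Int.floor_nonneg.mpr (by positivity)
    rw [e1, first_meas (by omega) hfl, add_sub_cancel_right]
    rw [H985LC.EE_real, H985LC.EE_real] at hn
    exact hn

end Pool.Agent.X145.LC
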